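import Mathlib
import Pool.Agent.helper61.DL.Defs2

set_option autoImplicit false

/-! MP_6163c8_ag, module V: vertices of a simple rational polyhedron; rational to real. -/

namespace Pool.Agent.helper40.DL

open Finset Pool.Agent.helper61.DL

variable {n : ℕ} {ι : Type} [Fintype ι] [DecidableEq ι]

lemma mem_facets {V : ι → Fin n → ℚ} {h : ι → ℚ} {Δ : Finset ι} : Δ ∈ facets V h ↔
    Δ.card = n ∧ ∃ k : Fin n → ℚ, (∀ i, h i ≤ k ⬝ᵥ V i) ∧ ∀ i, i ∈ Δ ↔ k ⬝ᵥ V i = h i := by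
  classical
  unfold facets
  rw [Finset.mem_filter]
  exact ⟨fun h => h.2, fun h => ⟨Finset.mem_univ _, h⟩⟩

lemma cast_dot (k v : Fin n → ℚ) :
    (fun j => (k j : ℝ)) ⬝ᵥ (fun j => (v j : ℝ)) = ((k ⬝ᵥ v : ℚ) : ℝ) := by
  simp [dotProduct]

lemma lin_dot (f : (Fin n → ℚ) →ₗ[ℚ] ℚ) (x : Fin n → ℚ) :
    f x = (fun j => f (Pi.single j 1)) ⬝ᵥ x := by
  conv_lhs => rw [pi_eq_sum_univ' x]
  rw [map_sum]
  refine Finset.sum_congr rfl fun j _ => ?_
  rw [map_smul, smul_eq_mul, mul_comm]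

omit [DecidableEq ι] in
/-- First hit in the direction `d`. -/
lemma exists_hit (V : ι → Fin n → ℝ) (h : ι → ℝ) (k d : Fin n → ℝ) (hk : ∀ i, h i ≤ k ⬝ᵥ V i)
    (hd : ∀ i, k ⬝ᵥ V i = h i → d ⬝ᵥ V i = 0) (i₁ : ι) (hi₁ : d ⬝ᵥ V i₁ < 0) :
    ∃ k' : Fin n → ℝ, (∀ i, h i ≤ k' ⬝ᵥ V i) ∧ (∀ i, k ⬝ᵥ V i = h i → k' ⬝ᵥ V i = h i) ∧
      ∃ i, k ⬝ᵥ V i ≠ h i ∧ k' ⬝ᵥ V i = h i := by
  classical
  obtain ⟨i₂, hi₂, hmin⟩ := Finset.exists_min_image (univ.filter fun i => d ⬝ᵥ V i < 0)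
    (fun i => (k ⬝ᵥ V i - h i) / (-(d ⬝ᵥ V i))) ⟨i₁, by simpa using hi₁⟩
  have hi₂' : d ⬝ᵥ V i₂ < 0 := by simpa using hi₂
  set t := (k ⬝ᵥ V i₂ - h i₂) / (-(d ⬝ᵥ V i₂)) with ht
  have ht0 : 0 ≤ t := div_nonneg (by linarith [hk i₂]) (by linarith)
  have hval : ∀ i, (k + t • d) ⬝ᵥ V i = k ⬝ᵥ V i + t * (d ⬝ᵥ V i) := by
    intro i
    rw [add_dotProduct, smul_dotProduct, smul_eq_mul]
  have ht2 : t * (-(d ⬝ᵥ V i₂)) = k ⬝ᵥ V i₂ - h i₂ := div_mul_cancel₀ _ (by linarith)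
  refine ⟨k + t • d, fun i => ?_, fun i hi => ?_, i₂, fun hc => ?_, ?_⟩
  · rw [hval]
    rcases lt_or_ge (d ⬝ᵥ V i) 0 with h1 | h1
    · have h2 := hmin i (by simpa using h1)
      rw [le_div_iff₀ (by linarith)] at h2
      linarith
    · have := mul_nonneg ht0 h1
      linarith [hk i]
  · rw [hval, hd i hi, mul_zero, add_zero, hi]
  · rw [hd i₂ hc] at hi₂'
    exact lt_irrefl _ hi₂'
  · rw [hval]; linarith

omit [DecidableEq ι] in
/-- A point of the polyhedron can be moved to a point with spanning active set. -/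
lemma exists_span (V : ι → Fin n → ℚ) (h : ι → ℚ)
    (conv : ∀ j, ∃ i, 0 < V i j ∧ ∀ j', j' ≠ j → V i j' = 0) (k : Fin n → ℝ)
    (hk : ∀ i, (h i : ℝ) ≤ k ⬝ᵥ (fun j => (V i j : ℝ))) :
    ∃ k' : Fin n → ℝ, (∀ i, (h i : ℝ) ≤ k' ⬝ᵥ (fun j => (V i j : ℝ))) ∧
      (∀ i, k ⬝ᵥ (fun j => (V i j : ℝ)) = h i → k' ⬝ᵥ (fun j => (V i j : ℝ)) = h i) ∧
      Submodule.span ℚ (V '' {i | k' ⬝ᵥ (fun j => (V i j : ℝ)) = h i}) = ⊤ := by
  classical
  set P : Finset ι → Prop := fun T => ∃ k' : Fin n → ℝ,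
    (∀ i, (h i : ℝ) ≤ k' ⬝ᵥ (fun j => (V i j : ℝ))) ∧
    (∀ i, k ⬝ᵥ (fun j => (V i j : ℝ)) = h i → k' ⬝ᵥ (fun j => (V i j : ℝ)) = h i) ∧
    ∀ i, i ∈ T ↔ k' ⬝ᵥ (fun j => (V i j : ℝ)) = h i with hP
  have hne : (univ.filter P).Nonempty := by
    refine ⟨univ.filter (fun i => k ⬝ᵥ (fun j => (V i j : ℝ)) = h i), ?_⟩
    rw [Finset.mem_filter]
    exact ⟨mem_univ _, k, hk, fun i hi => hi, fun i => by simp⟩
  obtain ⟨T, hT, hmax⟩ := Finset.exists_max_image _ Finset.card hne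
  obtain ⟨k', hk', hkk', hTk⟩ := (Finset.mem_filter.1 hT).2
  refine ⟨k', hk', hkk', ?_⟩
  by_contra hspan
  obtain ⟨f, hf, hker⟩ := Submodule.exists_le_ker_of_lt_top _ (lt_top_iff_ne_top.2 hspan)
  -- coordinates of `f`
  set d : Fin n → ℚ := fun j => f (Pi.single j 1) with hd
  have hfd : ∀ x : Fin n → ℚ, f x = d ⬝ᵥ x := lin_dot f
  have hd0 : ∃ j, d j ≠ 0 := by
    by_contra hc
    push Not at hc
    apply hf
    ext x
    simpa using hc x
  obtain ⟨j, hj⟩ := hd0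
  obtain ⟨i₁, hi₁, hi₁'⟩ := conv j
  have hdi : d ⬝ᵥ V i₁ = d j * V i₁ j := by
    unfold dotProduct
    refine Finset.sum_eq_single j (fun b _ hb => ?_) (fun hb => absurd (mem_univ _) hb)
    rw [hi₁' b hb, mul_zero]
  have hactive : ∀ i, k' ⬝ᵥ (fun j => (V i j : ℝ)) = h i → d ⬝ᵥ V i = 0 := by
    intro i hi
    have : V i ∈ Submodule.span ℚ (V '' {i | k' ⬝ᵥ (fun j => (V i j : ℝ)) = h i}) :=
      Submodule.subset_span ⟨i, hi, rfl⟩
    have := hker this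
    rw [LinearMap.mem_ker] at this
    rw [← hfd]; exact this
  -- a direction which decreases along some constraint
  obtain ⟨d', hd', i₀, hi₀⟩ : ∃ d' : Fin n → ℝ, (∀ i, k' ⬝ᵥ (fun j => (V i j : ℝ)) = h i →
      d' ⬝ᵥ (fun j => (V i j : ℝ)) = 0) ∧ ∃ i, d' ⬝ᵥ (fun j => (V i j : ℝ)) < 0 := by
    have hne : d ⬝ᵥ V i₁ ≠ 0 := by rw [hdi]; exact mul_ne_zero hj hi₁.ne'
    rcases lt_or_gt_of_ne hne with h1 | h1
    · refine ⟨fun j => (d j : ℝ), fun i hi => ?_, i₁, ?_⟩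
      · rw [cast_dot, hactive i hi, Rat.cast_zero]
      · rw [cast_dot]; exact_mod_cast h1
    · refine ⟨-(fun j => (d j : ℝ)), fun i hi => ?_, i₁, ?_⟩
      · rw [neg_dotProduct, cast_dot, hactive i hi, Rat.cast_zero, neg_zero]
      · rw [neg_dotProduct, cast_dot]
        have : (0 : ℝ) < ((d ⬝ᵥ V i₁ : ℚ) : ℝ) := by exact_mod_cast h1
        linarith
  obtain ⟨k'', g1, g2, i₃, g3, g4⟩ := exists_hit (fun i j => (V i j : ℝ)) (fun i => (h i : ℝ))
    k' d' hk' hd' i₀ hi₀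
  have hmem : (univ.filter (fun i => k'' ⬝ᵥ (fun j => (V i j : ℝ)) = h i)) ∈ univ.filter P := by
    rw [Finset.mem_filter]
    exact ⟨mem_univ _, k'', g1, fun i hi => g2 i (hkk' i hi), fun i => by simp⟩
  have hle := hmax _ hmem
  have hss : T ⊂ (univ.filter (fun i => k'' ⬝ᵥ (fun j => (V i j : ℝ)) = h i)) := by
    rw [Finset.ssubset_iff_subset_ne]
    refine ⟨fun i hi => ?_, fun hc => ?_⟩
    · rw [Finset.mem_filter]
      exact ⟨mem_univ _, g2 i ((hTk i).1 hi)⟩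
    · have : i₃ ∈ T := by rw [hc, Finset.mem_filter]; exact ⟨mem_univ _, g4⟩
      exact g3 ((hTk i₃).1 this)
  have := Finset.card_lt_card hss
  omega

omit [Fintype ι] [DecidableEq ι] in
/-- A point with spanning active set is rational. -/
lemma rational_of_span (V : ι → Fin n → ℚ) (h : ι → ℚ) (k : Fin n → ℝ)
    (hs : Submodule.span ℚ (V '' {i | k ⬝ᵥ (fun j => (V i j : ℝ)) = h i}) = ⊤) :
    ∃ q : Fin n → ℚ, k = fun j => (q j : ℝ) := by
  classical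
  have key : ∀ j, ∃ q : ℚ, k j = q := by
    intro j
    have hj : (Pi.single j 1 : Fin n → ℚ) ∈
        Submodule.span ℚ (V '' {i | k ⬝ᵥ (fun j => (V i j : ℝ)) = h i}) := by
      rw [hs]; exact Submodule.mem_top
    rw [Submodule.mem_span_image_iff_exists_fun] at hj
    obtain ⟨t, ht, c, hc⟩ := hj
    refine ⟨∑ i, c i * h i, ?_⟩
    have h1 : ∀ i : t, k ⬝ᵥ (fun j => (V i j : ℝ)) = h i := fun i => ht i.2
    have h2 : ∀ l, (∑ i, (c i : ℝ) * (V i l : ℝ)) = if l = j then 1 else 0 := by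
      intro l
      have := congrFun hc l
      rw [Finset.sum_apply] at this
      simp only [Pi.smul_apply, smul_eq_mul, Pi.single_apply] at this
      have h3 : ((∑ i : t, c i * V i l : ℚ) : ℝ) = ((if l = j then 1 else 0 : ℚ) : ℝ) := by
        rw [this]
      push_cast at h3
      rw [h3]
      split_ifs <;> simp
    calc k j = ∑ l, k l * (if l = j then 1 else 0) := by simp
      _ = ∑ l, k l * ∑ i : t, (c i : ℝ) * (V i l : ℝ) := by simp_rw [h2]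
      _ = ∑ i : t, (c i : ℝ) * (k ⬝ᵥ (fun j => (V i j : ℝ))) := by
        simp_rw [dotProduct, Finset.mul_sum]
        rw [Finset.sum_comm]
        refine Finset.sum_congr rfl fun i _ => Finset.sum_congr rfl fun l _ => by ring
      _ = ∑ i : t, (c i : ℝ) * (h i : ℝ) := by
        refine Finset.sum_congr rfl fun i _ => ?_
        rw [h1 i]
      _ = ((∑ i, c i * h i : ℚ) : ℝ) := by push_cast; rfl
  choose q hq using key
  exact ⟨q, funext hq⟩

/-- Every real point of the polyhedron has its active set in a facet. -/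
lemma act_real (V : ι → Fin n → ℚ) (h : ι → ℚ)
    (conv : ∀ j, ∃ i, 0 < V i j ∧ ∀ j', j' ≠ j → V i j' = 0)
    (simple : ∀ k : Fin n → ℚ, (∀ i, h i ≤ k ⬝ᵥ V i) →
      LinearIndependent ℚ (fun i : {i // k ⬝ᵥ V i = h i} => V i)) (k : Fin n → ℝ)
    (hk : ∀ i, (h i : ℝ) ≤ k ⬝ᵥ (fun j => (V i j : ℝ))) :
    ∃ Δ ∈ facets V h, ∀ i, k ⬝ᵥ (fun j => (V i j : ℝ)) = h i → i ∈ Δ := by
  classical
  obtain ⟨k', hk', hkk', hs⟩ := exists_span V h conv k hk
  obtain ⟨q, rfl⟩ := rational_of_span V h k' hs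
  have hq : ∀ i, h i ≤ q ⬝ᵥ V i := by
    intro i
    have := hk' i
    rw [cast_dot] at this
    exact_mod_cast this
  have hset : {i | (fun j => (q j : ℝ)) ⬝ᵥ (fun j => (V i j : ℝ)) = h i} =
      {i | q ⬝ᵥ V i = h i} := by
    ext i
    simp only [Set.mem_ofPred_eq]
    rw [cast_dot]
    norm_cast
  rw [hset] at hs
  have hli := simple q hq
  have hcard : Fintype.card {i // q ⬝ᵥ V i = h i} = n := by
    have h1 := finrank_span_eq_card hli
    have h2 : Set.range (fun i : {i // q ⬝ᵥ V i = h i} => V i) = V '' {i | q ⬝ᵥ V i = h i} := by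
      ext x
      constructor
      · rintro ⟨⟨i, hi⟩, rfl⟩
        exact ⟨i, hi, rfl⟩
      · rintro ⟨i, hi, rfl⟩
        exact ⟨⟨i, hi⟩, rfl⟩
    rw [h2, hs, finrank_top, Module.finrank_fin_fun] at h1
    exact h1.symm
  refine ⟨univ.filter (fun i => q ⬝ᵥ V i = h i), mem_facets.2 ⟨?_, q, hq, fun i => by simp⟩,
    fun i hi => ?_⟩
  · have := Fintype.card_subtype (fun i => q ⬝ᵥ V i = h i)
    exact this.symm.trans hcard
  · rw [Finset.mem_filter]
    refine ⟨mem_univ _, ?_⟩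
    have := hkk' i hi
    rw [cast_dot] at this
    exact_mod_cast this

/-- Dual basis of a facet. -/
lemma exists_dual (V : ι → Fin n → ℚ) (h : ι → ℚ)
    (simple : ∀ k : Fin n → ℚ, (∀ i, h i ≤ k ⬝ᵥ V i) →
      LinearIndependent ℚ (fun i : {i // k ⬝ᵥ V i = h i} => V i)) (Δ : Finset ι)
    (hΔ : Δ ∈ facets V h) : ∃ dd : ι → Fin n → ℚ,
      ∀ u ∈ Δ, ∀ v ∈ Δ, dd u ⬝ᵥ V v = if u = v then 1 else 0 := by
  classical
  obtain ⟨hc, k, hk, hact⟩ := mem_facets.1 hΔ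
  have hli : LinearIndependent ℚ (fun i : {i // i ∈ Δ} => V i) := by
    have h1 := simple k hk
    have e : {i // i ∈ Δ} ≃ {i // k ⬝ᵥ V i = h i} := Equiv.subtypeEquivRight hact
    have h2 := h1.comp (Equiv.subtypeEquivRight hact) (Equiv.injective _)
    exact h2
  rcases Δ.eq_empty_or_nonempty with rfl | hne
  · exact ⟨fun _ => 0, fun u hu => absurd hu (Finset.notMem_empty _)⟩
  have : Nonempty {i // i ∈ Δ} := ⟨⟨hne.choose, hne.choose_spec⟩⟩
  have hcard : Fintype.card {i // i ∈ Δ} = Module.finrank ℚ (Fin n → ℚ) := by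
    rw [Module.finrank_fin_fun, Fintype.card_coe, hc]
  set b := basisOfLinearIndependentOfCardEqFinrank hli hcard with hb
  have hbv : ∀ v : {i // i ∈ Δ}, b v = V v := fun v => by
    rw [hb, coe_basisOfLinearIndependentOfCardEqFinrank]
  refine ⟨fun u => if hu : u ∈ Δ then fun j => b.coord ⟨u, hu⟩ (Pi.single j 1) else 0,
    fun u hu v hv => ?_⟩
  have hfd : ∀ x : Fin n → ℚ, (fun j => b.coord ⟨u, hu⟩ (Pi.single j 1)) ⬝ᵥ x =
      b.coord ⟨u, hu⟩ x := fun x => (lin_dot _ x).symm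
  simp only [dif_pos hu]
  rw [hfd, ← hbv ⟨v, hv⟩, Module.Basis.coord_apply, Module.Basis.repr_self,
    Finsupp.single_apply]
  by_cases huv : u = v
  · subst huv; simp
  · rw [if_neg huv, if_neg]
    intro h'
    exact huv (congrArg Subtype.val h').symm

theorem exists_poly (V : ι → Fin n → ℚ) (h : ι → ℚ)
    (V_nonneg : ∀ i j, 0 ≤ V i j) (conv : ∀ j, ∃ i, 0 < V i j ∧ ∀ j', j' ≠ j → V i j' = 0)
    (h_pos : ∀ i, 0 < h i)
    (simple : ∀ k : Fin n → ℚ, (∀ i, h i ≤ k ⬝ᵥ V i) →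
      LinearIndependent ℚ (fun i : {i // k ⬝ᵥ V i = h i} => V i)) :
    ∃ (kk : Finset ι → Fin n → ℚ) (dd : Finset ι → ι → Fin n → ℚ),
      Poly (fun i j => (V i j : ℝ)) (fun i => (h i : ℝ)) (facets V h)
        (fun Δ j => (kk Δ j : ℝ)) (fun Δ v j => (dd Δ v j : ℝ)) := by
  classical
  have h1 : ∀ Δ : Finset ι, ∃ k : Fin n → ℚ, Δ ∈ facets V h → (∀ i, h i ≤ k ⬝ᵥ V i) ∧
      ∀ i, i ∈ Δ ↔ k ⬝ᵥ V i = h i := by
    intro Δ
    by_cases hΔ : Δ ∈ facets V h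
    · obtain ⟨_, k, hk⟩ := mem_facets.1 hΔ
      exact ⟨k, fun _ => hk⟩
    · exact ⟨0, fun hc => absurd hc hΔ⟩
  have h2 : ∀ Δ : Finset ι, ∃ dd : ι → Fin n → ℚ, Δ ∈ facets V h →
      ∀ u ∈ Δ, ∀ v ∈ Δ, dd u ⬝ᵥ V v = if u = v then 1 else 0 := by
    intro Δ
    by_cases hΔ : Δ ∈ facets V h
    · obtain ⟨dd, hdd⟩ := exists_dual V h simple Δ hΔ
      exact ⟨dd, fun _ => hdd⟩
    · exact ⟨0, fun hc => absurd hc hΔ⟩
  choose kk hkk using h1
  choose dd hdd using h2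
  refine ⟨kk, dd, ?_⟩
  constructor
  · intro Δ hΔ
    exact (mem_facets.1 hΔ).1
  · intro Δ hΔ i
    rw [cast_dot]
    exact_mod_cast (hkk Δ hΔ).1 i
  · intro Δ hΔ i
    rw [cast_dot, (hkk Δ hΔ).2 i]
    norm_cast
  · intro Δ hΔ u hu v hv
    have := hdd Δ hΔ u hu v hv
    rw [cast_dot, this]
    split_ifs <;> simp
  · intro k hk
    exact act_real V h conv simple k hk
  · intro i j
    exact_mod_cast V_nonneg i j
  · intro j
    obtain ⟨i, hi, hi'⟩ := conv j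
    refine ⟨i, by exact_mod_cast hi, fun j' hj' => ?_⟩
    rw [hi' j' hj', Rat.cast_zero]
  · intro i
    exact_mod_cast h_pos i

omit [Fintype ι] [DecidableEq ι] in
lemma exists_small (s : Finset ι) (a b : ι → ℚ) (ha : ∀ i ∈ s, 0 < a i) :
    ∃ ε : ℚ, 0 < ε ∧ ∀ i ∈ s, 0 < a i + ε * b i := by
  have hs : 0 ≤ ∑ i ∈ s, |b i| / a i :=
    Finset.sum_nonneg fun i hi => div_nonneg (abs_nonneg _) (ha i hi).le
  refine ⟨1 / (1 + ∑ i ∈ s, |b i| / a i), by positivity, fun i hi => ?_⟩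
  have h1 : |b i| / a i ≤ ∑ i ∈ s, |b i| / a i :=
    Finset.single_le_sum (f := fun i => |b i| / a i)
      (fun i hi => div_nonneg (abs_nonneg _) (ha i hi).le) hi
  have h2 : |b i| / a i < 1 + ∑ i ∈ s, |b i| / a i := by linarith
  rw [div_lt_iff₀ (ha i hi)] at h2
  have h3 : |b i| / (1 + ∑ i ∈ s, |b i| / a i) < a i := by
    rw [div_lt_iff₀ (by linarith)]
    linarith
  have h4 : -(1 / (1 + ∑ i ∈ s, |b i| / a i) * b i) ≤ |b i| / (1 + ∑ i ∈ s, |b i| / a i) := by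
    rw [div_mul_eq_mul_div, one_mul, ← neg_div]
    exact div_le_div_of_nonneg_right (neg_le_abs _) (by linarith)
  linarith

/-- A positive rational vector can be scaled to a positive integral one. -/
lemma exists_scale (k : Fin n → ℚ) (hk : ∀ j, 0 < k j) :
    ∃ (N : ℚ) (w : Fin n → ℕ), 0 < N ∧ (∀ j, 0 < w j) ∧ ∀ j, (w j : ℚ) = N * k j := by
  refine ⟨∏ j, ((k j).den : ℚ), fun j => (∏ l ∈ univ.erase j, (k l).den) * (k j).num.toNat,
    Finset.prod_pos fun j _ => by exact_mod_cast (k j).den_pos, fun j => ?_, fun j => ?_⟩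
  · refine Nat.mul_pos (Finset.prod_pos fun l _ => (k l).den_pos) ?_
    have := Rat.num_pos.2 (hk j)
    omega
  · have h1 : ((k j).num.toNat : ℚ) = ((k j).num : ℚ) := by
      have h2 : (((k j).num.toNat : ℤ) : ℚ) = ((k j).num : ℚ) := by
        rw [Int.toNat_of_nonneg (Rat.num_pos.2 (hk j)).le]
      rw [← h2]; norm_cast
    have h2 : (k j : ℚ) * (k j).den = (k j).num := Rat.mul_den_eq_num (k j)
    rw [← Finset.mul_prod_erase univ (fun l => ((k l).den : ℚ)) (mem_univ j)]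
    push_cast
    rw [h1, ← h2]
    ring

/-- for `h = 1`: the nonempty faces are the supports of the positive integral weights -/
theorem face_iff [Nonempty ι] (V : ι → Fin n → ℕ)
    (conv : ∀ j, ∃ i, 0 < V i j ∧ ∀ j', j' ≠ j → V i j' = 0) (V_ne : ∀ i, V i ≠ 0)
    (simple : ∀ k : Fin n → ℚ, (∀ i, (1 : ℚ) ≤ k ⬝ᵥ (fun j => (V i j : ℚ))) →
      LinearIndependent ℚ (fun i : {i // k ⬝ᵥ (fun j => (V i j : ℚ)) = 1} =>
        fun j => (V i j : ℚ))) (F : Finset ι) :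
    (∃ w : Fin n → ℕ, (∀ j, 0 < w j) ∧ ∀ i, i ∈ F ↔ ∀ i', ∑ j, w j * V i j ≤ ∑ j, w j * V i' j) ↔
      F ∈ fcs (facets (fun i j => (V i j : ℚ)) fun _ => 1) ∧ F ≠ ∅ := by
  classical
  have convQ : ∀ j, ∃ i, 0 < (fun i j => (V i j : ℚ)) i j ∧
      ∀ j', j' ≠ j → (fun i j => (V i j : ℚ)) i j' = 0 := by
    intro j
    obtain ⟨i, hi, hi'⟩ := conv j
    exact ⟨i, by simpa using hi, fun j' hj' => by simp [hi' j' hj']⟩
  constructor
  · rintro ⟨w, hw, hF⟩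
    obtain ⟨i₀, _, hi₀⟩ := Finset.exists_min_image (univ : Finset ι)
      (fun i => ∑ j, w j * V i j) Finset.univ_nonempty
    have hi₀' : ∀ i, ∑ j, w j * V i₀ j ≤ ∑ j, w j * V i j := fun i => hi₀ i (mem_univ _)
    have hmpos : 0 < ∑ j, w j * V i₀ j := by
      obtain ⟨j, hj⟩ : ∃ j, V i₀ j ≠ 0 := by
        by_contra hc
        push Not at hc
        exact V_ne i₀ (funext hc)
      exact Finset.sum_pos' (fun j _ => Nat.zero_le _)
        ⟨j, mem_univ _, Nat.mul_pos (hw j) (Nat.pos_of_ne_zero hj)⟩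
    set m := ∑ j, w j * V i₀ j with hm
    have hmQ : (0 : ℚ) < m := by exact_mod_cast hmpos
    have hval : ∀ i, (fun j => (w j : ℚ) / m) ⬝ᵥ (fun j => (V i j : ℚ)) =
        ((∑ j, w j * V i j : ℕ) : ℚ) / m := by
      intro i
      unfold dotProduct
      push_cast
      rw [Finset.sum_div]
      exact Finset.sum_congr rfl fun j _ => by ring
    have hge : ∀ i, (1 : ℚ) ≤ (fun j => (w j : ℚ) / m) ⬝ᵥ (fun j => (V i j : ℚ)) := by
      intro i
      rw [hval, le_div_iff₀ hmQ, one_mul]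
      exact_mod_cast hi₀' i
    have hi₀F : i₀ ∈ F := (hF i₀).2 hi₀'
    refine ⟨?_, fun hc => by rw [hc] at hi₀F; simp at hi₀F⟩
    obtain ⟨Δ, hΔ, hact⟩ := act_real (fun i j => (V i j : ℚ)) (fun _ => 1) convQ simple
      (fun j => (((w j : ℚ) / m : ℚ) : ℝ)) (fun i => by
        rw [cast_dot (fun j => (w j : ℚ) / m) (fun j => (V i j : ℚ))]
        exact_mod_cast hge i)
    unfold fcs
    rw [Finset.mem_biUnion]
    refine ⟨Δ, hΔ, Finset.mem_powerset.2 fun i hi => hact i ?_⟩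
    rw [cast_dot (fun j => (w j : ℚ) / m) (fun j => (V i j : ℚ)), hval]
    have : ∑ j, w j * V i j = m := le_antisymm ((hF i).1 hi i₀) (hi₀' i)
    rw [this, div_self hmQ.ne']
  · rintro ⟨hF, hFne⟩
    unfold fcs at hF
    rw [Finset.mem_biUnion] at hF
    obtain ⟨Δ, hΔ, hFΔ⟩ := hF
    rw [Finset.mem_powerset] at hFΔ
    obtain ⟨i₀, hi₀⟩ := Finset.nonempty_iff_ne_empty.2 hFne
    obtain ⟨dd, hdd⟩ := exists_dual (fun i j => (V i j : ℚ)) (fun _ => 1) simple Δ hΔ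
    obtain ⟨hcard, q, hq, hqa⟩ := mem_facets.1 hΔ
    set D : Fin n → ℚ := ∑ v ∈ Δ \ F, dd v with hD
    have hDv : ∀ u ∈ Δ, D ⬝ᵥ (fun j => (V u j : ℚ)) = if u ∈ F then 0 else 1 := by
      intro u hu
      rw [hD, sum_dotProduct]
      rw [Finset.sum_congr rfl (fun v hv => hdd v (Finset.mem_sdiff.1 hv).1 u hu)]
      rw [Finset.sum_ite_eq']
      by_cases huF : u ∈ F
      · rw [if_pos huF, if_neg (fun h => (Finset.mem_sdiff.1 h).2 huF)]
      · rw [if_neg huF, if_pos (Finset.mem_sdiff.2 ⟨hu, huF⟩)]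
    obtain ⟨ε, hε, hε'⟩ := exists_small (univ \ Δ) (fun i => q ⬝ᵥ (fun j => (V i j : ℚ)) - 1)
      (fun i => D ⬝ᵥ (fun j => (V i j : ℚ))) (fun i hi => by
        have h1 : i ∉ Δ := (Finset.mem_sdiff.1 hi).2
        have h2 := hq i
        have h3 : q ⬝ᵥ (fun j => (V i j : ℚ)) ≠ 1 := fun h => h1 ((hqa i).2 h)
        have := lt_of_le_of_ne h2 (Ne.symm h3)
        simpa using this)
    set k : Fin n → ℚ := q + ε • D with hk
    have hval : ∀ i, k ⬝ᵥ (fun j => (V i j : ℚ)) =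
        q ⬝ᵥ (fun j => (V i j : ℚ)) + ε * (D ⬝ᵥ (fun j => (V i j : ℚ))) := by
      intro i
      rw [hk, add_dotProduct, smul_dotProduct, smul_eq_mul]
    have hkF : ∀ i, i ∈ F → k ⬝ᵥ (fun j => (V i j : ℚ)) = 1 := by
      intro i hi
      rw [hval, hDv i (hFΔ hi), if_pos hi, mul_zero, add_zero]
      exact (hqa i).1 (hFΔ hi)
    have hkF' : ∀ i, i ∉ F → 1 < k ⬝ᵥ (fun j => (V i j : ℚ)) := by
      intro i hi
      rw [hval]
      by_cases hiΔ : i ∈ Δ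
      · rw [hDv i hiΔ, if_neg hi, mul_one]
        have := (hqa i).1 hiΔ
        linarith
      · have := hε' i (Finset.mem_sdiff.2 ⟨mem_univ _, hiΔ⟩)
        linarith
    have hkpos : ∀ j, 0 < k j := by
      intro j
      obtain ⟨i, hi, hi'⟩ := conv j
      have h1 : 1 ≤ k ⬝ᵥ (fun j => (V i j : ℚ)) := by
        by_cases hiF : i ∈ F
        · rw [hkF i hiF]
        · exact (hkF' i hiF).le
      have h2 : k ⬝ᵥ (fun j => (V i j : ℚ)) = k j * (V i j : ℚ) := by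
        unfold dotProduct
        refine Finset.sum_eq_single j (fun b _ hb => ?_) (fun hb => absurd (mem_univ _) hb)
        simp [hi' b hb]
      rw [h2] at h1
      have h3 : (0 : ℚ) < (V i j : ℚ) := by exact_mod_cast hi
      exact pos_of_mul_pos_left (by linarith) h3.le
    obtain ⟨N, w, hN, hw, hwk⟩ := exists_scale k hkpos
    have hsum : ∀ i, ((∑ j, w j * V i j : ℕ) : ℚ) = N * (k ⬝ᵥ (fun j => (V i j : ℚ))) := by
      intro i
      unfold dotProduct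
      push_cast
      rw [Finset.mul_sum]
      exact Finset.sum_congr rfl fun j _ => by rw [hwk j]; ring
    have hcmp : ∀ i i', (∑ j, w j * V i j ≤ ∑ j, w j * V i' j) ↔
        k ⬝ᵥ (fun j => (V i j : ℚ)) ≤ k ⬝ᵥ (fun j => (V i' j : ℚ)) := by
      intro i i'
      rw [← Nat.cast_le (α := ℚ), hsum, hsum]
      exact mul_le_mul_iff_right₀ hN
    refine ⟨w, hw, fun i => ⟨fun hi i' => ?_, fun hi => ?_⟩⟩
    · rw [hcmp, hkF i hi]
      by_cases hi' : i' ∈ F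
      · rw [hkF i' hi']
      · exact (hkF' i' hi').le
    · by_contra hiF
      have h1 := (hcmp i i₀).1 (hi i₀)
      rw [hkF i₀ hi₀] at h1
      linarith [hkF' i hiF]

end Pool.Agent.helper40.DL
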